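import Pool.Agent.Helper34.PatternFinal

/-!
A forest with 12 edges and a pattern with three classes for which the complete graph does not have
the largest number of pattern-free 3-colourings, for infinitely many orders.
-/

set_option autoImplicit false

namespace Pool.Agent.Results.MP_7ad145_co.ForestPattern

open Pool.Agent.Helper34.Pattern (F0 p0 p0_surj img forall_F0 CC main Rich copy_of_rich
  sum_dg_le_of_not_rich dg)

/-- The number of colourings of the edges of `H` with `r` colours that contain no copy of `F` with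
the pattern `p`: a copy `φ` of `F` in `H` has the pattern `p` if any two edges of the copy have the
same colour exactly when the corresponding edges of `F` are in the same class of `p`. -/
noncomputable def count (r : ℕ) {V W : Type} {t : ℕ} (F : SimpleGraph V) (p : F.edgeSet → Fin t)
    (H : SimpleGraph W) : ℕ :=
  Nat.card {c : H.edgeSet → Fin r // ¬ ∃ φ : F.Copy H, ∀ e f : F.edgeSet,
    (c (φ.mapEdgeSet e) = c (φ.mapEdgeSet f) ↔ p e = p f)}

/-- the graph of a family of pairs -/
def gr {n : ℕ} (H : Finset (Finset (Fin n))) : SimpleGraph (Fin n) where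
  Adj x y := x ≠ y ∧ ({x, y} : Finset (Fin n)) ∈ H
  symm := ⟨fun x y h => ⟨h.1.symm, by rw [Finset.pair_comm]; exact h.2⟩⟩
  loopless := ⟨fun x h => h.1 rfl⟩

/-- the forest -/
def F : SimpleGraph (Fin 16) := gr F0

/-- its pattern -/
def p (e : F.edgeSet) : Fin 3 := p0 e.1.toFinset

theorem mem_gr {n : ℕ} {H : Finset (Finset (Fin n))} (hH : ∀ e ∈ H, e.card = 2)
    (s : Sym2 (Fin n)) : s ∈ (gr H).edgeSet ↔ s.toFinset ∈ H := by
  induction s with
  | _ x y =>
    rw [SimpleGraph.mem_edgeSet, Sym2.toFinset_mk_eq]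
    refine ⟨fun h => h.2, fun h => ⟨?_, h⟩⟩
    rintro rfl
    have := hH _ h
    simp at this

theorem toFinset_inj {n : ℕ} {s s' : Sym2 (Fin n)} (h : s.toFinset = s'.toFinset) : s = s' := by
  ext x
  rw [← Sym2.mem_toFinset, ← Sym2.mem_toFinset, h]

theorem exists_edge {n : ℕ} {H : Finset (Finset (Fin n))} (hH : ∀ e ∈ H, e.card = 2)
    {e : Finset (Fin n)} (he : e ∈ H) : ∃ s ∈ (gr H).edgeSet, s.toFinset = e := by
  obtain ⟨x, y, hxy, rfl⟩ := Finset.card_eq_two.1 (hH e he)
  exact ⟨s(x, y), (mem_gr hH _).2 (by rwa [Sym2.toFinset_mk_eq]), Sym2.toFinset_mk_eq⟩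

theorem F0_two : ∀ e ∈ F0, e.card = 2 := Pool.Agent.Helper34.Pattern.F0_card

theorem toFinset_map {n : ℕ} (φ : Fin 16 → Fin n) (s : Sym2 (Fin 16)) :
    (s.map φ).toFinset = s.toFinset.image φ := by
  induction s with
  | _ x y =>
    rw [Sym2.map_mk, Sym2.toFinset_mk_eq, Sym2.toFinset_mk_eq, img]

/-- The pattern condition in both formats. -/
theorem pattern_iff {n : ℕ} {H : Finset (Finset (Fin n))} (hH : ∀ e ∈ H, e.card = 2)
    (c : Finset (Fin n) → Option (Fin 3)) (d : (gr H).edgeSet → Fin 3)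
    (hcd : ∀ s : (gr H).edgeSet, c s.1.toFinset = some (d s)) :
    (∃ φ : Fin 16 → Fin n, Function.Injective φ ∧ (∀ e ∈ F0, e.image φ ∈ H) ∧
      (∀ e ∈ F0, ∀ e' ∈ F0, (c (e.image φ) = c (e'.image φ) ↔ p0 e = p0 e'))) ↔
    ∃ φ : F.Copy (gr H), ∀ e f : F.edgeSet,
      (d (φ.mapEdgeSet e) = d (φ.mapEdgeSet f) ↔ p e = p f) := by
  constructor
  · rintro ⟨φ, hφ, h1, h2⟩
    have hhom : ∀ {x y : Fin 16}, F.Adj x y → (gr H).Adj (φ x) (φ y) := by
      intro x y h
      refine ⟨fun e => h.1 (hφ e), ?_⟩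
      rw [← img]
      exact h1 _ h.2
    obtain ⟨φ', hφ'⟩ : ∃ φ' : F.Copy (gr H), ∀ x, φ'.toHom x = φ x :=
      ⟨⟨⟨φ, hhom⟩, hφ⟩, fun _ => rfl⟩
    have hφ2 : φ = φ'.toHom := funext fun x => (hφ' x).symm
    refine ⟨φ', ?_⟩
    intro e f
    have he := (mem_gr F0_two e.1).1 e.2
    have hf := (mem_gr F0_two f.1).1 f.2
    have h3 := h2 _ he _ hf
    rw [← toFinset_map, ← toFinset_map, hφ2] at h3
    have e1 : ∀ g : F.edgeSet, c (g.1.map φ'.toHom).toFinset = some (d (φ'.mapEdgeSet g)) :=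
      fun g => hcd (φ'.mapEdgeSet g)
    rw [e1 e, e1 f, Option.some.injEq] at h3
    exact h3
  · rintro ⟨φ, h⟩
    have h1 : ∀ e ∈ F0, ∃ s : F.edgeSet, s.1.toFinset = e ∧
        c (e.image φ.toHom) = some (d (φ.mapEdgeSet s)) ∧ e.image φ.toHom ∈ H := by
      intro e he
      obtain ⟨s, hs, rfl⟩ := exists_edge F0_two he
      refine ⟨⟨s, hs⟩, rfl, ?_, ?_⟩
      · rw [← toFinset_map]
        exact hcd (φ.mapEdgeSet ⟨s, hs⟩)
      · rw [← toFinset_map]
        exact (mem_gr hH _).1 (φ.mapEdgeSet ⟨s, hs⟩).2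
    refine ⟨φ.toHom, φ.injective', fun e he => (h1 e he).choose_spec.2.2, ?_⟩
    intro e he e' he'
    obtain ⟨s, rfl, hs, -⟩ := h1 e he
    obtain ⟨s', rfl, hs', -⟩ := h1 e' he'
    rw [hs, hs', Option.some.injEq]
    exact h s s'

/-- The numbers of colourings in both formats are equal. -/
theorem count_eq {n : ℕ} {H : Finset (Finset (Fin n))} (hH : ∀ e ∈ H, e.card = 2) :
    CC n H = count 3 F p (gr H) := by
  classical
  unfold CC count
  have hget : ∀ (c : Finset (Fin n) → Option (Fin 3)), (∀ e, c e = none ↔ e ∉ H) →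
      ∀ s : (gr H).edgeSet, c s.1.toFinset = some ((c s.1.toFinset).getD 0) := by
    intro c hc s
    have h1 : c s.1.toFinset ≠ none := by
      rw [Ne, hc, not_not]
      exact (mem_gr hH _).1 s.2
    obtain ⟨a, ha⟩ := Option.ne_none_iff_exists'.1 h1
    rw [ha]
    rfl
  refine Nat.card_congr (Equiv.ofBijective (fun c => ⟨fun s => (c.1 s.1.toFinset).getD 0, ?_⟩)
    ⟨?_, ?_⟩)
  · intro h
    exact c.2.2 ((pattern_iff hH c.1 _ (hget c.1 c.2.1)).2 h)
  · rintro ⟨c, hc, hc2⟩ ⟨c', hc', hc2'⟩ h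
    apply Subtype.ext
    funext e
    show c e = c' e
    by_cases he : e ∈ H
    · obtain ⟨s, hs, rfl⟩ := exists_edge hH he
      have h1 := congrFun (congrArg Subtype.val h) ⟨s, hs⟩
      have h2 := hget c hc ⟨s, hs⟩
      have h3 := hget c' hc' ⟨s, hs⟩
      simp only at h1 h2 h3
      rw [h2, h3, h1]
    · rw [(hc e).2 he, (hc' e).2 he]
  · rintro ⟨d, hd⟩
    let c : Finset (Fin n) → Option (Fin 3) := fun e =>
      if h : ∃ s : (gr H).edgeSet, s.1.toFinset = e then some (d h.choose) else none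
    have hcd : ∀ s : (gr H).edgeSet, c s.1.toFinset = some (d s) := by
      intro s
      have h : ∃ s' : (gr H).edgeSet, s'.1.toFinset = s.1.toFinset := ⟨s, rfl⟩
      have h1 : h.choose = s := Subtype.ext (toFinset_inj h.choose_spec)
      simp only [c]
      rw [dif_pos h, h1]
    have hcn : ∀ e, c e = none ↔ e ∉ H := by
      intro e
      simp only [c]
      constructor
      · intro h he
        obtain ⟨s, hs, rfl⟩ := exists_edge hH he
        rw [dif_pos ⟨⟨s, hs⟩, rfl⟩] at h
        exact absurd h (by simp)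
      · intro he
        rw [dif_neg]
        rintro ⟨s, rfl⟩
        exact he ((mem_gr hH _).1 s.2)
    refine ⟨⟨c, hcn, fun h => hd ((pattern_iff hH c d hcd).1 h)⟩, ?_⟩
    apply Subtype.ext
    funext s
    show (c s.1.toFinset).getD 0 = d s
    rw [hcd s]
    rfl

theorem gr_complete (n : ℕ) :
    gr (Finset.powersetCard 2 (Finset.univ : Finset (Fin n))) = ⊤ := by
  ext x y
  simp only [gr, SimpleGraph.top_adj, Finset.mem_powersetCard, Finset.subset_univ, true_and]
  exact ⟨fun h => h.1, fun h => ⟨h, Finset.card_pair h⟩⟩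

theorem extremal (n : ℕ) : SimpleGraph.extremalNumber n F ≤ 44 * n := by
  classical
  have h0 : SimpleGraph.extremalNumber (Fintype.card (Fin n)) F ≤ 44 * n := by
    rw [SimpleGraph.extremalNumber_le_iff]
    intro G _ hG
    have hnr : ¬ Rich G.Adj G.Adj := by
      intro h
      obtain ⟨φ, hφ, h1, h2, h3, h4, h5, h6, h7, h8, h9, h10, h11, h12⟩ :=
        copy_of_rich G.Adj G.Adj G.Adj h h
      apply hG
      have key : ∀ e ∈ F0, ∀ x y, e = {x, y} → x ≠ y → G.Adj (φ x) (φ y) := by
        have kk : ∀ a b : Fin 16, G.Adj (φ a) (φ b) → ∀ x y : Fin 16,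
            ({a, b} : Finset (Fin 16)) = {x, y} → x ≠ y → G.Adj (φ x) (φ y) := by
          intro a b hab x y he hxy
          have hx : x ∈ ({a, b} : Finset (Fin 16)) := by rw [he]; simp
          have hy : y ∈ ({a, b} : Finset (Fin 16)) := by rw [he]; simp
          simp only [Finset.mem_insert, Finset.mem_singleton] at hx hy
          rcases hx with rfl | rfl <;> rcases hy with rfl | rfl
          · exact absurd rfl hxy
          · exact hab
          · exact hab.symm
          · exact absurd rfl hxy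
        apply forall_F0 <;> apply kk <;> assumption
      exact ⟨⟨⟨φ, fun {x y} h => key _ h.2 x y rfl h.1⟩, hφ⟩⟩
    have hsum := sum_dg_le_of_not_rich G.Adj (fun _ _ h => h.symm) (fun _ h => h.ne rfl) hnr
    have h1 : ∑ x, dg G.Adj x = 2 * G.edgeFinset.card := by
      rw [← G.sum_degrees_eq_twice_card_edges]
      refine Finset.sum_congr rfl fun x _ => ?_
      unfold dg
      rw [← SimpleGraph.card_neighborFinset_eq_degree]
      congr 1
      ext y
      simp
    omega
  simpa using h0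

/-- **A counterexample.** -/
theorem result : ∃ (F : SimpleGraph (Fin 16)) (p : F.edgeSet → Fin 3),
    Function.Surjective p ∧ (∀ n, SimpleGraph.extremalNumber n F ≤ 44 * n) ∧
    ∀ n₀ : ℕ, ∃ n, n₀ ≤ n ∧ ∃ H : SimpleGraph (Fin n),
      count 3 F p (⊤ : SimpleGraph (Fin n)) < count 3 F p H := by
  refine ⟨F, p, ?_, extremal, ?_⟩
  · intro i
    obtain ⟨e, he, hi⟩ := p0_surj i
    obtain ⟨s, hs, rfl⟩ := exists_edge F0_two he
    exact ⟨⟨s, hs⟩, hi⟩
  · intro n₀
    by_contra hc
    push Not at hc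
    refine main n₀ fun n hn H hH => ?_
    have h1 := hc n hn (gr H)
    rw [count_eq hH, count_eq (fun e he => (Finset.mem_powersetCard.1 he).2), gr_complete]
    exact h1

end Pool.Agent.Results.MP_7ad145_co.ForestPattern
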